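import Pool.Agent.Y862.SQ.Stm
import Pool.Agent.H986R2.KSat.Tools

/-!
# Project SQ, job AVG: the average of the singular series over sets

The double counting follows `Pool/Agent/TH464/PO/Sing2.lean`.
-/

set_option autoImplicit false

namespace Pool.Agent.Y61.SQ

open Finset Filter Pool.Agent.Y862.SQ

theorem mem_pr {y p : ℕ} : p ∈ pr y ↔ p.Prime ∧ p ≤ y := by
  unfold pr
  rw [mem_filter, mem_Icc]
  constructor
  · rintro ⟨⟨-, h⟩, hp⟩
    exact ⟨hp, h⟩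
  · rintro ⟨hp, h⟩
    exact ⟨⟨hp.one_lt.le, h⟩, hp⟩

theorem pr_filter {w y : ℕ} (h : w ≤ y) : (pr y).filter (fun p => ¬ w < p) = pr w := by
  ext p
  rw [mem_filter, mem_pr, mem_pr]
  constructor
  · rintro ⟨⟨hp, _⟩, h1⟩
    exact ⟨hp, by omega⟩
  · rintro ⟨hp, h1⟩
    exact ⟨⟨hp, by omega⟩, by omega⟩

theorem fac_pos {p : ℕ} (hp : p.Prime) : 0 < 1 - 1 / (p : ℝ) := by
  have : (2 : ℝ) ≤ p := by exact_mod_cast hp.two_le
  rw [sub_pos, div_lt_one (by linarith)]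
  linarith

theorem V1_pos (y : ℕ) : 0 < V1 y := by
  unfold V1
  exact prod_pos fun p hp => fac_pos (mem_pr.1 hp).1

theorem V1t_pos (w y : ℕ) : 0 < V1t w y := by
  unfold V1t
  exact prod_pos fun p hp => fac_pos (mem_pr.1 (mem_filter.1 hp).1).1

theorem V1_split {w y : ℕ} (h : w ≤ y) : V1 y = V1 w * V1t w y := by
  unfold V1 V1t
  rw [← prod_filter_mul_prod_filter_not (pr y) (fun p => w < p), pr_filter h, mul_comm]

theorem VH_split (H : Finset ℕ) {w y : ℕ} (h : w ≤ y) : VH H y = VH H w * VT H w y := by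
  unfold VH VT
  rw [← prod_filter_mul_prod_filter_not (pr y) (fun p => w < p), pr_filter h, mul_comm]

theorem rH_le (H : Finset ℕ) (p : ℕ) : rH H p ≤ p := by
  unfold rH
  exact (card_filter_le _ _).trans (by rw [card_range])

theorem VH_nonneg (H : Finset ℕ) (y : ℕ) : 0 ≤ VH H y := by
  unfold VH
  refine prod_nonneg fun p hp => ?_
  have h1 : (0 : ℝ) < p := by exact_mod_cast (mem_pr.1 hp).1.pos
  have h2 : (rH H p : ℝ) ≤ p := by exact_mod_cast rH_le H p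
  rw [sub_nonneg, div_le_one h1]
  exact h2

theorem VH_le_one (H : Finset ℕ) (y : ℕ) : VH H y ≤ 1 := by
  unfold VH
  refine prod_le_one (fun p hp => ?_) fun p hp => ?_
  · have h1 : (0 : ℝ) < p := by exact_mod_cast (mem_pr.1 hp).1.pos
    have h2 : (rH H p : ℝ) ≤ p := by exact_mod_cast rH_le H p
    rw [sub_nonneg, div_le_one h1]
    exact h2
  · have : (0 : ℝ) ≤ (rH H p : ℝ) / p := by positivity
    linarith

theorem Ff_nonneg (w y h : ℕ) : 0 ≤ Ff w y h := by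
  unfold Ff
  refine prod_nonneg fun p hp => ?_
  have h1 : (2 : ℝ) ≤ p := by exact_mod_cast (mem_pr.1 (mem_filter.1 hp).1).1.two_le
  have h2 : (leg h p : ℝ) ≤ 1 := by
    unfold leg
    rcases jacobiSym.trichotomy (-(h : ℤ)) p with h | h | h <;> rw [h] <;> norm_num
  rw [sub_nonneg, div_le_one (by linarith)]
  linarith

theorem Dd_ge (K w t : ℕ) : 0 ≤ Dd K w t - 1 := by
  unfold Dd
  rw [sub_nonneg]
  calc (1 : ℝ) = ∏ p ∈ t.primeFactors.filter (fun p => w < p), (1 : ℝ) := by simp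
    _ ≤ _ := prod_le_prod (fun _ _ => zero_le_one) fun p _ => by
        have : (0 : ℝ) ≤ (K : ℝ) / p := by positivity
        linarith

/-- lower bound for the sieve product -/
theorem V1_low (hM : S_MERT) : ∃ c : ℝ, 0 < c ∧ c ≤ 1 ∧ ∀ w : ℕ, 3 ≤ w →
    c / Real.log w ≤ V1 w := by
  obtain ⟨C, hC⟩ := hM
  have hsum : Summable (fun n : ℕ => 2 / (n : ℝ) ^ 2) :=
    (Real.summable_one_div_nat_pow.2 (by norm_num : 1 < 2)).mul_left 2 |>.congr
      (fun n => by ring)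
  set B := ∑' n : ℕ, 2 / (n : ℝ) ^ 2
  refine ⟨min 1 (Real.exp (-(C + B))), lt_min one_pos (Real.exp_pos _), min_le_left _ _, ?_⟩
  intro w hw
  have hw1 : (1 : ℝ) < w := by exact_mod_cast (by omega : 1 < w)
  have hlog : 0 < Real.log w := Real.log_pos hw1
  have h1 : ∀ p ∈ pr w, Real.exp (-(1 / (p : ℝ) + 2 / (p : ℝ) ^ 2)) ≤ 1 - 1 / (p : ℝ) := by
    intro p hp
    have hp2 : (2 : ℝ) ≤ p := by exact_mod_cast (mem_pr.1 hp).1.two_le
    have hpos := fac_pos (mem_pr.1 hp).1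
    rw [← Real.le_log_iff_exp_le hpos]
    have h2 := Real.one_sub_inv_le_log_of_pos hpos
    refine le_trans ?_ h2
    have h3 : 1 - (1 - 1 / (p : ℝ))⁻¹ = -(1 / ((p : ℝ) - 1)) := by
      have : (p : ℝ) - 1 ≠ 0 := by linarith
      have h4 : (p : ℝ) ≠ 0 := by linarith
      have h5 : 1 - 1 / (p : ℝ) = (p - 1) / p := by field_simp
      rw [h5, inv_div]
      field_simp
      ring
    rw [h3, neg_le_neg_iff]
    have h4 : (0 : ℝ) < p - 1 := by linarith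
    have h5 : (0 : ℝ) < p := by linarith
    rw [div_add_div _ _ h5.ne' (by positivity), div_le_div_iff₀ h4 (by positivity)]
    nlinarith [mul_pos h5 h5]
  have h2 : Real.exp (∑ p ∈ pr w, -(1 / (p : ℝ) + 2 / (p : ℝ) ^ 2)) ≤ V1 w := by
    unfold V1
    rw [Real.exp_sum]
    exact prod_le_prod (fun p _ => (Real.exp_pos _).le) h1
  have h3 : ∑ p ∈ pr w, 2 / (p : ℝ) ^ 2 ≤ B := hsum.sum_le_tsum _ (fun n _ => by positivity)
  have h4 := (abs_le.1 (hC w hw)).2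
  have h5 : -(C + B) - Real.log (Real.log w) ≤ ∑ p ∈ pr w, -(1 / (p : ℝ) + 2 / (p : ℝ) ^ 2) := by
    rw [sum_neg_distrib, sum_add_distrib]
    linarith
  calc min 1 (Real.exp (-(C + B))) / Real.log w ≤ Real.exp (-(C + B)) / Real.log w := by
        gcongr
        exact min_le_right _ _
    _ = Real.exp (-(C + B) - Real.log (Real.log w)) := by
        rw [Real.exp_sub, Real.exp_log hlog]
    _ ≤ _ := (Real.exp_le_exp.2 h5).trans h2

theorem abs_prod_sub_one (s : Finset ℕ) (f : ℕ → ℝ) :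
    |∏ h ∈ s, f h - 1| ≤ ∏ h ∈ s, (1 + |f h - 1|) - 1 := by
  induction s using Finset.induction_on with
  | empty => simp
  | insert a s ha ih =>
    rw [prod_insert ha, prod_insert ha]
    have h1 : f a * ∏ h ∈ s, f h - 1 = (f a - 1) * (∏ h ∈ s, f h - 1) + (f a - 1) +
        (∏ h ∈ s, f h - 1) := by ring
    rw [h1]
    have h2 := abs_nonneg (f a - 1)
    have h3 := abs_nonneg (∏ h ∈ s, f h - 1)
    calc _ ≤ |f a - 1| * |∏ h ∈ s, f h - 1| + |f a - 1| + |∏ h ∈ s, f h - 1| := by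
          refine (abs_add_le _ _).trans ?_
          gcongr
          refine (abs_add_le _ _).trans ?_
          rw [abs_mul]
      _ ≤ _ := by nlinarith

theorem one_add_pow_le {x : ℝ} (h0 : 0 ≤ x) (h1 : x ≤ 1) (K : ℕ) :
    (1 + x) ^ K ≤ 1 + 2 ^ K * x := by
  have key : ∀ K : ℕ, (1 + x) ^ K ≤ 1 + (2 ^ K - 1) * x := by
    intro K
    induction K with
    | zero => simp
    | succ K ih =>
      have h2 : (1 : ℝ) ≤ 2 ^ K := one_le_pow₀ (by norm_num)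
      rw [pow_succ, pow_succ]
      have h3 : (1 + x) ^ K * (1 + x) ≤ (1 + (2 ^ K - 1) * x) * (1 + x) := by gcongr
      nlinarith [mul_nonneg (sub_nonneg.2 h2) (mul_nonneg h0 (sub_nonneg.2 h1))]
  exact (key K).trans (by nlinarith)

/-- first error -/
theorem err_one (K T : ℕ) (hK : K ≤ T) (hT : 1 ≤ T) (f : ℕ → ℝ) (x : ℝ) (hx0 : 0 ≤ x)
    (hx1 : x ≤ 1) (hG : ∑ h ∈ Icc 1 T, |f h - 1| ≤ T * x) :
    ∑ H ∈ powersetCard K (Icc 1 T), |∏ h ∈ H, f h - 1| ≤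
      (T : ℝ) ^ K / K.factorial * (2 ^ K * x + (K : ℝ) ^ 2 / T) := by
  have hT0 : (0 : ℝ) < T := by exact_mod_cast hT
  have h1 : ∑ H ∈ powersetCard K (Icc 1 T), |∏ h ∈ H, f h - 1| ≤
      ∑ H ∈ powersetCard K (Icc 1 T), (∏ h ∈ H, (1 + |f h - 1|) - 1) :=
    sum_le_sum fun H _ => abs_prod_sub_one H f
  refine h1.trans ?_
  rw [sum_sub_distrib]
  have h2 := Pool.Agent.H986R2.KSat.esymm_le (Icc 1 T) (fun h => 1 + |f h - 1|)
    (fun h _ => by positivity) K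
  have h3 : ∑ h ∈ Icc 1 T, (1 + |f h - 1|) ≤ T * (1 + x) := by
    rw [sum_add_distrib]
    simp only [sum_const, Nat.card_Icc, Nat.add_sub_cancel, nsmul_eq_mul, mul_one]
    linarith
  have h4 : (∑ h ∈ Icc 1 T, (1 + |f h - 1|)) ^ K ≤ (T : ℝ) ^ K * (1 + 2 ^ K * x) := by
    calc _ ≤ (T * (1 + x)) ^ K := by
          gcongr
      _ = (T : ℝ) ^ K * (1 + x) ^ K := mul_pow _ _ _
      _ ≤ _ := by
          gcongr
          exact one_add_pow_le hx0 hx1 K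
  have h5 : ∑ H ∈ powersetCard K (Icc 1 T), (1 : ℝ) = (T.choose K : ℝ) := by
    rw [sum_const, card_powersetCard, Nat.card_Icc, Nat.add_sub_cancel, nsmul_eq_mul, mul_one]
  have hf : (0 : ℝ) < K.factorial := by positivity
  have h6 : (T : ℝ) ^ K * (1 - (K : ℝ) ^ 2 / T) ≤ K.factorial * (T.choose K : ℝ) := by
    have e1 : (K.factorial : ℝ) * (T.choose K : ℝ) = ((T.descFactorial K : ℕ) : ℝ) := by
      rw [Nat.descFactorial_eq_factorial_mul_choose]
      push_cast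
      ring
    rw [e1]
    have e2 : (((T + 1 - K) ^ K : ℕ) : ℝ) ≤ ((T.descFactorial K : ℕ) : ℝ) := by
      exact_mod_cast Nat.pow_sub_le_descFactorial T K
    refine le_trans ?_ e2
    push_cast [Nat.cast_sub (by omega : K ≤ T + 1)]
    have hKT : (K : ℝ) ≤ T := by exact_mod_cast hK
    have e3 : ((T : ℝ) - K) ^ K ≤ ((T : ℝ) + 1 - K) ^ K :=
      pow_le_pow_left₀ (by linarith) (by linarith) K
    refine le_trans ?_ e3
    have e4 : (T : ℝ) - K = T * (1 + -(K / T)) := by field_simp; ring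
    rw [e4, mul_pow]
    gcongr
    have e5 : -2 ≤ -((K : ℝ) / T) := by
      have : (K : ℝ) / T ≤ 1 := by rw [div_le_one hT0]; exact hKT
      linarith
    refine le_trans (le_of_eq ?_) (one_add_mul_le_pow e5 K)
    ring
  rw [h5]
  calc _ ≤ (T : ℝ) ^ K * (1 + 2 ^ K * x) / K.factorial - (T : ℝ) ^ K * (1 - (K : ℝ) ^ 2 / T) /
        K.factorial := by
        refine sub_le_sub (h2.trans ?_) ?_
        · gcongr
        · rw [div_le_iff₀ hf]
          linarith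
    _ = _ := by ring

/-- sum over the sets containing two given elements -/
theorem sum_two (k T a b : ℕ) (hab : a ≠ b) (F : ℕ → ℝ) (hF : ∀ h, 0 ≤ F h) :
    ∑ H ∈ (powersetCard (k + 2) (Icc 1 T)).filter (fun H => a ∈ H ∧ b ∈ H), ∏ h ∈ H, F h ≤
      F a * F b * (∑ h ∈ Icc 1 T, F h) ^ k := by
  have h1 : ∀ H ∈ (powersetCard (k + 2) (Icc 1 T)).filter (fun H => a ∈ H ∧ b ∈ H),
      ∏ h ∈ H, F h = F a * F b * ∏ h ∈ (H.erase a).erase b, F h := by
    intro H hH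
    rw [mem_filter] at hH
    rw [← mul_prod_erase H F hH.2.1, ← mul_prod_erase (H.erase a) F
      (mem_erase.2 ⟨hab.symm, hH.2.2⟩), mul_assoc]
  rw [sum_congr rfl h1, ← mul_sum]
  refine mul_le_mul_of_nonneg_left ?_ (mul_nonneg (hF a) (hF b))
  have hinj : Set.InjOn (fun H : Finset ℕ => (H.erase a).erase b)
      ((powersetCard (k + 2) (Icc 1 T)).filter (fun H => a ∈ H ∧ b ∈ H)) := by
    intro H hH H' hH' h
    rw [mem_coe, mem_filter] at hH hH'
    have e1 : ∀ H : Finset ℕ, a ∈ H → b ∈ H → H = insert a (insert b ((H.erase a).erase b)) := by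
      intro H ha hb
      rw [insert_erase (mem_erase.2 ⟨hab.symm, hb⟩), insert_erase ha]
    simp only at h
    rw [e1 H hH.2.1 hH.2.2, e1 H' hH'.2.1 hH'.2.2, h]
  have h2 : ∑ H ∈ (powersetCard (k + 2) (Icc 1 T)).filter (fun H => a ∈ H ∧ b ∈ H),
      ∏ h ∈ (H.erase a).erase b, F h ≤ ∑ H ∈ powersetCard k (Icc 1 T), ∏ h ∈ H, F h := by
    rw [← sum_image (f := fun H => ∏ h ∈ H, F h) hinj]
    refine sum_le_sum_of_subset_of_nonneg ?_ (fun H _ _ => prod_nonneg fun h _ => hF h)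
    intro H hH
    rw [mem_image] at hH
    obtain ⟨H', hH', rfl⟩ := hH
    rw [mem_filter, mem_powersetCard] at hH'
    obtain ⟨⟨h1, h2⟩, h3, h4⟩ := hH'
    rw [mem_powersetCard]
    refine ⟨((erase_subset _ _).trans (erase_subset _ _)).trans h1, ?_⟩
    rw [card_erase_of_mem (mem_erase.2 ⟨hab.symm, h4⟩), card_erase_of_mem h3, h2]
    omega
  refine h2.trans ((Pool.Agent.H986R2.KSat.esymm_le (Icc 1 T) F (fun h _ => hF h) k).trans ?_)
  have h3 : (0 : ℝ) ≤ (∑ h ∈ Icc 1 T, F h) ^ k := pow_nonneg (sum_nonneg fun h _ => hF h) k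
  exact div_le_self h3 (by exact_mod_cast Nat.one_le_iff_ne_zero.2 (Nat.factorial_ne_zero k))

theorem sum_shift (T : ℕ) (F d : ℕ → ℝ) (hF : ∀ h, 0 ≤ F h) (hd : ∀ t, 0 ≤ d t) :
    ∑ x ∈ prs (Icc 1 T), d (x.2 - x.1) * (F x.1 * F x.2) ≤
      (∑ h ∈ Icc 1 T, F h ^ 2) * ∑ t ∈ Icc 1 T, d t := by
  have h0 : ∀ x ∈ prs (Icc 1 T), d (x.2 - x.1) * (F x.1 * F x.2) ≤
      (1 / 2) * (d (x.2 - x.1) * F x.1 ^ 2) + (1 / 2) * (d (x.2 - x.1) * F x.2 ^ 2) := by
    intro x _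
    have := mul_nonneg (hd (x.2 - x.1)) (sq_nonneg (F x.1 - F x.2))
    nlinarith
  refine (sum_le_sum h0).trans ?_
  rw [sum_add_distrib, ← mul_sum, ← mul_sum]
  have h1 : ∑ x ∈ prs (Icc 1 T), d (x.2 - x.1) * F x.1 ^ 2 ≤
      (∑ h ∈ Icc 1 T, F h ^ 2) * ∑ t ∈ Icc 1 T, d t := by
    unfold prs
    rw [sum_filter, sum_product, sum_mul]
    refine sum_le_sum fun a _ => ?_
    rw [← sum_filter]
    have e : ∀ b ∈ (Icc 1 T).filter (fun b => a < b), d (b - a) * F a ^ 2 =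
        F a ^ 2 * d (b - a) := fun b _ => mul_comm _ _
    rw [sum_congr rfl e, ← mul_sum]
    refine mul_le_mul_of_nonneg_left ?_ (sq_nonneg _)
    have h5 : ∑ b ∈ (Icc 1 T).filter (fun b => a < b), d (b - a) =
        ∑ t ∈ ((Icc 1 T).filter (fun b => a < b)).image (fun b => b - a), d t := by
      rw [Finset.sum_image]
      intro b hb b' hb' h
      rw [Finset.mem_coe, mem_filter] at hb hb'
      simp only at h
      omega
    rw [h5]
    apply Finset.sum_le_sum_of_subset_of_nonneg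
    · intro t ht
      rw [mem_image] at ht
      obtain ⟨b, hb, rfl⟩ := ht
      rw [mem_filter, mem_Icc] at hb
      rw [mem_Icc]
      omega
    · intros
      exact hd _
  have h2 : ∑ x ∈ prs (Icc 1 T), d (x.2 - x.1) * F x.2 ^ 2 ≤
      (∑ h ∈ Icc 1 T, F h ^ 2) * ∑ t ∈ Icc 1 T, d t := by
    unfold prs
    rw [sum_filter, sum_product, sum_comm, sum_mul]
    refine sum_le_sum fun b _ => ?_
    rw [← sum_filter]
    have e : ∀ a ∈ (Icc 1 T).filter (fun a => a < b), d (b - a) * F b ^ 2 =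
        F b ^ 2 * d (b - a) := fun a _ => mul_comm _ _
    rw [sum_congr rfl e, ← mul_sum]
    refine mul_le_mul_of_nonneg_left ?_ (sq_nonneg _)
    have h5 : ∑ a ∈ (Icc 1 T).filter (fun a => a < b), d (b - a) =
        ∑ t ∈ ((Icc 1 T).filter (fun a => a < b)).image (fun a => b - a), d t := by
      rw [Finset.sum_image]
      intro a ha a' ha' h
      rw [Finset.mem_coe, mem_filter] at ha ha'
      simp only at h
      omega
    rw [h5]
    rcases le_or_gt b T with hb | hb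
    · apply Finset.sum_le_sum_of_subset_of_nonneg
      · intro t ht
        rw [mem_image] at ht
        obtain ⟨a, ha, rfl⟩ := ht
        rw [mem_filter, mem_Icc] at ha
        rw [mem_Icc]
        omega
      · intros
        exact hd _
    · rename_i hbm
      rw [mem_Icc] at hbm
      omega
  linarith

open Classical in
/-- second error -/
theorem err_two (k T : ℕ) (F d : ℕ → ℝ) (hF : ∀ h, 0 ≤ F h) (hd : ∀ t, 0 ≤ d t) :
    ∑ H ∈ powersetCard (k + 2) (Icc 1 T), (∏ h ∈ H, F h) * ∑ x ∈ prs H, d (x.2 - x.1) ≤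
      (∑ h ∈ Icc 1 T, F h) ^ k * ((∑ h ∈ Icc 1 T, F h ^ 2) * ∑ t ∈ Icc 1 T, d t) := by
  have h1 : ∀ H ∈ powersetCard (k + 2) (Icc 1 T),
      (∏ h ∈ H, F h) * ∑ x ∈ prs H, d (x.2 - x.1) =
      ∑ x ∈ prs (Icc 1 T), if (x.1 ∈ H ∧ x.2 ∈ H) then d (x.2 - x.1) * ∏ h ∈ H, F h else 0 := by
    intro H hH
    rw [mem_powersetCard] at hH
    rw [← Finset.sum_filter, mul_sum]
    apply Finset.sum_congr _ (fun _ _ => mul_comm _ _)
    ext x
    unfold prs
    rw [mem_filter, mem_filter, mem_filter, mem_product, mem_product]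
    constructor
    · rintro ⟨⟨a1, a2⟩, a3⟩
      exact ⟨⟨⟨hH.1 a1, hH.1 a2⟩, a3⟩, a1, a2⟩
    · rintro ⟨⟨_, a3⟩, a1, a2⟩
      exact ⟨⟨a1, a2⟩, a3⟩
  rw [sum_congr rfl h1, sum_comm]
  have h2 : ∀ x ∈ prs (Icc 1 T), ∑ H ∈ powersetCard (k + 2) (Icc 1 T),
      (if (x.1 ∈ H ∧ x.2 ∈ H) then d (x.2 - x.1) * ∏ h ∈ H, F h else 0) ≤
        (∑ h ∈ Icc 1 T, F h) ^ k * (d (x.2 - x.1) * (F x.1 * F x.2)) := by
    intro x hx
    rw [← sum_filter, ← mul_sum]
    have hne : x.1 ≠ x.2 := by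
      unfold prs at hx
      rw [mem_filter] at hx
      exact hx.2.ne
    have h3 := mul_le_mul_of_nonneg_left (sum_two k T x.1 x.2 hne F hF) (hd (x.2 - x.1))
    refine (le_trans (le_of_eq ?_) h3).trans (le_of_eq (by ring))
    congr 1
  refine (sum_le_sum h2).trans ?_
  rw [← mul_sum]
  exact mul_le_mul_of_nonneg_left (sum_shift T F d hF hd)
    (pow_nonneg (sum_nonneg fun h _ => hF h) k)

theorem err_two_one (T : ℕ) (F d : ℕ → ℝ) :
    ∑ H ∈ powersetCard 1 (Icc 1 T), (∏ h ∈ H, F h) * ∑ x ∈ prs H, d (x.2 - x.1) = 0 := by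
  refine Finset.sum_eq_zero fun H hH => ?_
  rw [mem_powersetCard] at hH
  obtain ⟨a, ha⟩ := Finset.card_eq_one.1 hH.2
  have : prs H = ∅ := by
    rw [Finset.eq_empty_iff_forall_notMem]
    intro x hx
    unfold prs at hx
    rw [mem_filter, mem_product, ha, mem_singleton, mem_singleton] at hx
    omega
  rw [this]
  simp

/-- the choice of `w` -/
theorem exists_w (A : ℝ) (hA : 0 ≤ A) (K : ℕ) (c δ : ℝ) (hc : 0 < c) (hδ : 0 < δ) (w0 : ℕ) :
    ∃ w : ℕ, w0 ≤ w ∧ 3 ≤ w ∧ A * (√(√(w : ℝ)))⁻¹ ≤ δ * (c / Real.log w) ^ K := by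
  have h := ((isLittleO_log_rpow_rpow_atTop (K : ℝ) (by norm_num : (0 : ℝ) < 1 / 4)).comp_tendsto
      tendsto_natCast_atTop_atTop).bound (by positivity : (0 : ℝ) < δ * c ^ K / (A + 1))
  obtain ⟨w, h2, hw0, hw2⟩ := (h.and ((eventually_ge_atTop w0).and
    (eventually_ge_atTop 3))).exists
  refine ⟨w, hw0, hw2, ?_⟩
  have hw1 : (1 : ℝ) ≤ w := by exact_mod_cast (by omega : 1 ≤ w)
  have hlog : 0 < Real.log w := Real.log_pos (by exact_mod_cast (by omega : 1 < w))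
  simp only [Function.comp_def] at h2
  have e : (w : ℝ) ^ (1 / 4 : ℝ) = √(√(w : ℝ)) := by
    rw [Real.sqrt_eq_rpow, Real.sqrt_eq_rpow, ← Real.rpow_mul (by positivity)]
    norm_num
  rw [Real.norm_of_nonneg (by positivity), Real.norm_of_nonneg (by positivity),
      Real.rpow_natCast, e] at h2
  have hs : 0 < √(√(w : ℝ)) := by positivity
  rw [div_pow, ← div_eq_mul_inv, ← mul_div_assoc, div_le_div_iff₀ hs (by positivity)]
  calc A * Real.log w ^ K ≤ (A + 1) * Real.log w ^ K := by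
        gcongr
        linarith
    _ ≤ (A + 1) * (δ * c ^ K / (A + 1) * √(√(w : ℝ))) := by gcongr
    _ = δ * c ^ K * √(√(w : ℝ)) := by field_simp

theorem low_aux {v P : ℝ} (h0 : 0 ≤ v) (h1 : v ≤ 1) : v - |P - 1| ≤ v * P := by
  have e7 := neg_abs_le (P - 1)
  have e8 := abs_nonneg (P - 1)
  nlinarith

theorem up_aux {v P : ℝ} (h0 : 0 ≤ v) (h1 : v ≤ 1) : v * P ≤ v + |P - 1| := by
  have e7 := le_abs_self (P - 1)
  have e8 := abs_nonneg (P - 1)
  nlinarith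

theorem sq_le_two (a : ℝ) : a ^ 2 ≤ 2 * (a - 1) ^ 2 + 2 := by nlinarith [sq_nonneg (a - 2)]

set_option maxHeartbeats 4000000 in
theorem t_AVG (hM : S_MERT) (h1 : S_FM) (h2 : S_COLL) (h3 : S_TAIL) (h4 : S_SMALL) : S_AVG := by
  intro k η hη
  obtain ⟨c, hc0, hc1, hc⟩ := V1_low hM
  obtain ⟨w0, hFM⟩ := h1
  obtain ⟨C, hC0, hC⟩ := h2 ((1 + 4 * (k + 1)) ^ ((k + 1) ^ 2) - 1)
  obtain ⟨K, hK⟩ : ∃ K : ℕ, K = k + 1 := ⟨_, rfl⟩
  rw [← hK] at hC
  obtain ⟨δ, hδ⟩ : ∃ δ : ℝ, δ = min η 1 / 8 := ⟨_, rfl⟩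
  have hδ0 : 0 < δ := by rw [hδ]; have := lt_min hη one_pos; positivity
  have hδη : 8 * δ ≤ η := by rw [hδ]; linarith [min_le_left η 1]
  have hδ1 : 8 * δ ≤ 1 := by rw [hδ]; linarith [min_le_right η 1]
  have hKf : (0 : ℝ) < K.factorial := by positivity
  obtain ⟨A, hA⟩ : ∃ A : ℝ, A = 4 * (K : ℝ) ^ 2 + 2 ^ K + 2 ^ K * C * K.factorial := ⟨_, rfl⟩
  have hA0 : 0 ≤ A := by rw [hA]; positivity
  obtain ⟨w, hw0, hw3, hwA⟩ := exists_w A hA0 K c (δ / 2) hc0 (by positivity)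
    (max w0 (4 * K + 2))
  have hww0 : w0 ≤ w := (le_max_left _ _).trans hw0
  have hwK : 4 * K + 2 ≤ w := (le_max_right _ _).trans hw0
  have hw1 : (1 : ℝ) ≤ w := by exact_mod_cast (by omega : 1 ≤ w)
  have hwpos : (0 : ℝ) < w := by linarith
  -- the small quantity
  obtain ⟨x, hx⟩ : ∃ x : ℝ, x = (√(√(w : ℝ)))⁻¹ := ⟨_, rfl⟩
  have hss : 1 ≤ √(√(w : ℝ)) := by
    rw [Real.one_le_sqrt, Real.one_le_sqrt]
    exact hw1
  have hx0 : 0 < x := by rw [hx]; positivity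
  have hx1 : x ≤ 1 := by rw [hx]; exact inv_le_one_of_one_le₀ hss
  have hx2 : x ^ 2 = (√(w : ℝ))⁻¹ := by
    rw [hx, inv_pow, Real.sq_sqrt (Real.sqrt_nonneg _)]
  have hx4 : (w : ℝ)⁻¹ = x ^ 4 := by
    have : x ^ 4 = (x ^ 2) ^ 2 := by ring
    rw [this, hx2, inv_pow, Real.sq_sqrt hwpos.le]
  have hxw : (w : ℝ)⁻¹ ≤ x := by
    rw [hx4]
    calc x ^ 4 ≤ x ^ 1 := pow_le_pow_of_le_one hx0.le hx1 (by norm_num)
      _ = x := pow_one x
  rw [← hx] at hwA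
  have hlog1 : 1 ≤ Real.log w := by
    rw [Real.le_log_iff_exp_le hwpos]
    have : (3 : ℝ) ≤ w := by exact_mod_cast hw3
    linarith [Real.exp_one_lt_d9]
  obtain ⟨V, hV⟩ : ∃ V : ℝ, V = V1 w := ⟨_, rfl⟩
  have hVpos : 0 < V := by rw [hV]; exact V1_pos w
  have hcV : (c / Real.log w) ^ K ≤ V ^ K := by
    rw [hV]
    exact pow_le_pow_left₀ (by positivity) (hc w hw3) K
  have hc1' : (c / Real.log w) ^ K ≤ 1 := by
    apply pow_le_one₀ (by positivity)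
    rw [div_le_one (by linarith)]
    linarith
  have hAV : A * x ≤ δ / 2 * V ^ K := hwA.trans (by gcongr)
  have hA1 : A * x ≤ δ / 2 := hwA.trans (mul_le_of_le_one_right (by positivity) hc1')
  have i1 : 4 * (K : ℝ) ^ 2 / w ≤ δ := by
    calc 4 * (K : ℝ) ^ 2 / w = 4 * (K : ℝ) ^ 2 * (w : ℝ)⁻¹ := div_eq_mul_inv _ _
      _ ≤ A * x := by
          apply mul_le_mul _ hxw (by positivity) hA0
          rw [hA]
          have : (0 : ℝ) ≤ 2 ^ K + 2 ^ K * C * K.factorial := by positivity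
          linarith
      _ ≤ δ := by linarith
  have i2 : 2 ^ K * x ≤ δ / 2 * V ^ K := by
    refine le_trans (mul_le_mul_of_nonneg_right ?_ hx0.le) hAV
    rw [hA]
    have : (0 : ℝ) ≤ 4 * (K : ℝ) ^ 2 + 2 ^ K * C * K.factorial := by positivity
    linarith
  have i3 : 2 ^ K * C / w ≤ δ * V ^ K / K.factorial := by
    rw [le_div_iff₀ hKf]
    calc 2 ^ K * C / w * K.factorial = 2 ^ K * C * K.factorial * (w : ℝ)⁻¹ := by
          rw [div_eq_mul_inv]; ring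
      _ ≤ A * x := by
          apply mul_le_mul _ hxw (by positivity) hA0
          rw [hA]
          have : (0 : ℝ) ≤ 4 * (K : ℝ) ^ 2 + 2 ^ K := by positivity
          linarith
      _ ≤ δ * V ^ K := by
          refine hAV.trans ?_
          gcongr
          linarith
  obtain ⟨T1, hT1⟩ := hFM w hww0
  obtain ⟨T2, hT2⟩ := h4 K w δ hδ0
  obtain ⟨T3, hT3⟩ := exists_nat_ge (2 * (K : ℝ) ^ 2 / (δ * V ^ K))
  refine ⟨w, T1 + T2 + T3 + K + 1, ?_⟩
  intro T hT y hy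
  rw [← hK]
  have hTpos : (0 : ℝ) < T := by exact_mod_cast (by omega : 0 < T)
  have hFM' := hT1 T (by omega) y
  have hSm := hT2 T (by omega)
  rw [← hV] at hSm
  obtain ⟨F, hF⟩ : ∃ F : ℕ → ℝ, F = fun h => Ff w y h := ⟨_, rfl⟩
  have hF0 : ∀ h, 0 ≤ F h := by intro h; rw [hF]; exact Ff_nonneg w y h
  have hFM2 : ∑ h ∈ Icc 1 T, (F h - 1) ^ 2 ≤ T * x ^ 2 := by
    rw [hF, hx2, ← div_eq_mul_inv]
    exact hFM'
  have hG : ∑ h ∈ Icc 1 T, |F h - 1| ≤ T * x := by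
    apply le_of_sq_le_sq _ (by positivity)
    have e1 := sq_sum_le_card_mul_sum_sq (s := Icc 1 T) (f := fun h => |F h - 1|)
    simp only [sq_abs, Nat.card_Icc, Nat.add_sub_cancel] at e1
    calc _ ≤ (T : ℝ) * ∑ h ∈ Icc 1 T, (F h - 1) ^ 2 := e1
      _ ≤ T * (T * x ^ 2) := by gcongr
      _ = _ := by ring
  have hTT : (T : ℝ) * x ≤ T := mul_le_of_le_one_right hTpos.le hx1
  have hS : ∑ h ∈ Icc 1 T, F h ≤ 2 * T := by
    have e1 : ∑ h ∈ Icc 1 T, F h ≤ ∑ h ∈ Icc 1 T, (|F h - 1| + 1) :=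
      sum_le_sum fun h _ => by linarith [le_abs_self (F h - 1)]
    rw [sum_add_distrib] at e1
    simp only [sum_const, Nat.card_Icc, Nat.add_sub_cancel, nsmul_eq_mul, mul_one] at e1
    linarith
  have hS2 : ∑ h ∈ Icc 1 T, F h ^ 2 ≤ 4 * T := by
    have e1 : ∑ h ∈ Icc 1 T, F h ^ 2 ≤ ∑ h ∈ Icc 1 T, (2 * (F h - 1) ^ 2 + 2) :=
      sum_le_sum fun h _ => sq_le_two (F h)
    rw [sum_add_distrib, ← mul_sum] at e1
    simp only [sum_const, Nat.card_Icc, Nat.add_sub_cancel, nsmul_eq_mul] at e1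
    have : (T : ℝ) * x ^ 2 ≤ T := mul_le_of_le_one_right hTpos.le (pow_le_one₀ hx0.le hx1)
    linarith
  obtain ⟨M, hMd⟩ : ∃ M : ℝ, M = (T * V) ^ K / K.factorial := ⟨_, rfl⟩
  rw [← hMd] at hSm
  have hM0 : 0 < M := by rw [hMd]; positivity
  have hMe : (T : ℝ) ^ K / K.factorial * V ^ K = M := by rw [hMd, mul_pow]; ring
  obtain ⟨S1, hS1⟩ : ∃ S1 : ℝ, S1 = ∑ H ∈ powersetCard K (Icc 1 T), |∏ h ∈ H, F h - 1| := ⟨_, rfl⟩
  have hS1le : S1 ≤ δ * M := by
    rw [hS1]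
    refine (err_one K T (by omega) (by omega) F x hx0.le hx1 hG).trans ?_
    rw [← hMe]
    have e1 : (K : ℝ) ^ 2 / T ≤ δ / 2 * V ^ K := by
      have e2 : (T3 : ℝ) ≤ T := by exact_mod_cast (by omega : T3 ≤ T)
      have e3 := hT3.trans e2
      rw [div_le_iff₀ (by positivity)] at e3
      rw [div_le_iff₀ hTpos]
      linarith
    calc _ ≤ (T : ℝ) ^ K / K.factorial * (δ / 2 * V ^ K + δ / 2 * V ^ K) := by gcongr
      _ = _ := by ring
  obtain ⟨d, hd⟩ : ∃ d : ℕ → ℝ, d = fun t => Dd ((1 + 4 * K) ^ (K ^ 2) - 1) w t - 1 := ⟨_, rfl⟩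
  have hd0 : ∀ t, 0 ≤ d t := by intro t; rw [hd]; exact Dd_ge _ _ _
  have hds : ∑ t ∈ Icc 1 T, d t ≤ C * T / w := by rw [hd]; exact hC w T (by omega)
  obtain ⟨S2, hS2d⟩ : ∃ S2 : ℝ, S2 = ∑ H ∈ powersetCard K (Icc 1 T),
    (∏ h ∈ H, F h) * ∑ z ∈ prs H, d (z.2 - z.1) := ⟨_, rfl⟩
  have hS2le : S2 ≤ δ * M := by
    have e1 : S2 ≤ (T : ℝ) ^ K * (2 ^ K * C / w) := by
      rcases k with _ | k
      · rw [hS2d, hK, err_two_one]
        positivity
      · have hK' : K = k + 2 := by omega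
        rw [hS2d, hK']
        refine (err_two k T F d hF0 hd0).trans ?_
        calc _ ≤ (2 * (T : ℝ)) ^ k * ((4 * T) * (C * T / w)) := by
              refine mul_le_mul (pow_le_pow_left₀ (sum_nonneg fun t _ => hF0 t) hS k)
                (mul_le_mul hS2 hds (sum_nonneg fun t _ => hd0 t) (by positivity))
                (mul_nonneg (sum_nonneg fun t _ => sq_nonneg _) (sum_nonneg fun t _ => hd0 t))
                (by positivity)
          _ = _ := by ring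
    refine e1.trans ?_
    rw [← hMe]
    calc _ ≤ (T : ℝ) ^ K * (δ * V ^ K / K.factorial) := by gcongr
      _ = _ := by ring
  -- the two bounds for a set
  obtain ⟨a, ha⟩ : ∃ a : ℝ, a = V1t w y ^ K := ⟨_, rfl⟩
  have ha0 : 0 < a := by rw [ha]; exact pow_pos (V1t_pos w y) K
  have hlow : ∀ H ∈ powersetCard K (Icc 1 T),
      a * (1 - 4 * (K : ℝ) ^ 2 / w) * (VH H w - |∏ h ∈ H, F h - 1|) ≤ VH H y := by
    intro H hH
    rw [mem_powersetCard] at hH
    have e1 := (h3 H w y (by rw [hH.2]; exact hwK)).1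
    rw [hH.2, ← ha] at e1
    have e2 : ∏ h ∈ H, Ff w y h = ∏ h ∈ H, F h := by rw [hF]
    rw [e2] at e1
    rw [VH_split H hy]
    have e3 := VH_nonneg H w
    have e4 := VH_le_one H w
    have e5 : VH H w - |∏ h ∈ H, F h - 1| ≤ VH H w * ∏ h ∈ H, F h := low_aux e3 e4
    have e9 : 0 ≤ a * (1 - 4 * (K : ℝ) ^ 2 / w) := mul_nonneg ha0.le (by linarith)
    calc _ ≤ a * (1 - 4 * (K : ℝ) ^ 2 / w) * (VH H w * ∏ h ∈ H, F h) := by gcongr
      _ = VH H w * (a * (∏ h ∈ H, F h) * (1 - 4 * (K : ℝ) ^ 2 / w)) := by ring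
      _ ≤ _ := by gcongr
  have hup : ∀ H ∈ powersetCard K (Icc 1 T), VH H y ≤
      a * (VH H w + |∏ h ∈ H, F h - 1| + (∏ h ∈ H, F h) * ∑ z ∈ prs H, d (z.2 - z.1)) := by
    intro H hH
    rw [mem_powersetCard] at hH
    have e1 := (h3 H w y (by rw [hH.2]; exact hwK)).2
    rw [hH.2, ← ha] at e1
    have e2 : ∏ h ∈ H, Ff w y h = ∏ h ∈ H, F h := by rw [hF]
    have e2' : ∑ z ∈ prs H, (Dd ((1 + 4 * K) ^ (K ^ 2) - 1) w (z.2 - z.1) - 1) =
      ∑ z ∈ prs H, d (z.2 - z.1) := by rw [hd]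
    rw [e2, e2'] at e1
    rw [VH_split H hy]
    have e3 := VH_nonneg H w
    have e4 := VH_le_one H w
    have e5 : VH H w * ∏ h ∈ H, F h ≤ VH H w + |∏ h ∈ H, F h - 1| := up_aux e3 e4
    have e6 : 0 ≤ (∏ h ∈ H, F h) * ∑ z ∈ prs H, d (z.2 - z.1) :=
      mul_nonneg (prod_nonneg fun h _ => hF0 h) (sum_nonneg fun z _ => hd0 _)
    calc _ ≤ VH H w * (a * (∏ h ∈ H, F h) * (1 + ∑ z ∈ prs H, d (z.2 - z.1))) := by gcongr
      _ = a * (VH H w * ∏ h ∈ H, F h + VH H w * ((∏ h ∈ H, F h) *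
          ∑ z ∈ prs H, d (z.2 - z.1))) := by ring
      _ ≤ _ := mul_le_mul_of_nonneg_left (add_le_add e5 (mul_le_of_le_one_left e6 e4)) ha0.le
  have hmain : (T * V1 y) ^ K / K.factorial = a * M := by
    rw [V1_split hy, ha, hMd, ← hV]
    ring
  rw [hmain]
  have hsl := sum_le_sum hlow
  have hsu := sum_le_sum hup
  rw [← mul_sum, sum_sub_distrib, ← hS1] at hsl
  rw [← mul_sum, sum_add_distrib, sum_add_distrib, ← hS1, ← hS2d] at hsu
  obtain ⟨Sc, hSc⟩ : ∃ z : ℝ, z = ∑ H ∈ powersetCard K (Icc 1 T), VH H w := ⟨_, rfl⟩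
  rw [← hSc] at hsl hsu hSm
  have hSm' := abs_le.1 hSm
  have haM : 0 < a * M := mul_pos ha0 hM0
  rw [abs_le]
  constructor
  · have e1 : (1 - 2 * δ) * M ≤ Sc - S1 := by linarith [hSm'.1]
    have e2 : 0 ≤ (1 - 2 * δ) * M := mul_nonneg (by linarith) hM0.le
    have e3 : (1 - δ) * ((1 - 2 * δ) * M) ≤ (1 - 4 * (K : ℝ) ^ 2 / w) * (Sc - S1) :=
      mul_le_mul (by linarith) e1 e2 (by linarith)
    have e4 : a * ((1 - δ) * ((1 - 2 * δ) * M)) ≤
        a * (1 - 4 * (K : ℝ) ^ 2 / w) * (Sc - S1) := by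
      rw [mul_assoc]
      exact mul_le_mul_of_nonneg_left e3 ha0.le
    have e5 := e4.trans hsl
    have e6 : a * ((1 - δ) * ((1 - 2 * δ) * M)) = (1 - 3 * δ + 2 * δ ^ 2) * (a * M) := by ring
    rw [e6] at e5
    have q1 : 8 * δ * (a * M) ≤ η * (a * M) := mul_le_mul_of_nonneg_right hδη haM.le
    have q2 : 0 ≤ δ ^ 2 * (a * M) := mul_nonneg (sq_nonneg δ) haM.le
    have q3 : 0 ≤ δ * (a * M) := mul_nonneg hδ0.le haM.le
    linarith
  · have e1 : Sc + S1 + S2 ≤ (1 + 3 * δ) * M := by linarith [hSm'.2]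
    have e2 : a * (Sc + S1 + S2) ≤ a * ((1 + 3 * δ) * M) := mul_le_mul_of_nonneg_left e1 ha0.le
    have e5 := hsu.trans e2
    have e6 : a * ((1 + 3 * δ) * M) = (1 + 3 * δ) * (a * M) := by ring
    rw [e6] at e5
    have q1 : 8 * δ * (a * M) ≤ η * (a * M) := mul_le_mul_of_nonneg_right hδη haM.le
    have q3 : 0 ≤ δ * (a * M) := mul_nonneg hδ0.le haM.le
    linarith

end Pool.Agent.Y61.SQ
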